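import Mathlib

/-!
# Initial odd denominators of hypergeometric Bernoulli numbers

For `b ≥ 1` the hypergeometric Bernoulli numbers `B_n^{(b)}` are defined by
`(z^b / b!) / (e^z - ∑_{k<b} z^k / k!) = ∑ B_n^{(b)} z^n / n!`.
We prove that the first `n` for which the denominator of `B_n^{(b)}` is even is
`ν₂(b) + 1` if `4 ∤ b`, and `2 ^ ν₂(b)` if `4 ∣ b`.
-/

open PowerSeries Finset

namespace Pool.Agent.Results.MP_375cbb_nt.InitialOddRun

/-- `IsHypBernoulli b B` says that `∑ B_n z^n / n!` is the quotient of `z^b / b!` by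
`e^z - ∑_{k<b} z^k / k!`, as formal power series over `ℚ`. -/
def IsHypBernoulli (b : ℕ) (B : ℕ → ℚ) : Prop :=
  (PowerSeries.mk fun n => B n / (n.factorial : ℚ)) *
      (PowerSeries.exp ℚ -
        ∑ k ∈ range b, PowerSeries.C (1 / (k.factorial : ℚ)) * (PowerSeries.X : ℚ⟦X⟧) ^ k) =
    PowerSeries.C (1 / (b.factorial : ℚ)) * (PowerSeries.X : ℚ⟦X⟧) ^ b

/-- the series `∑ z^m / (m! * binom (b+m) m)`. -/
noncomputable def den (b : ℕ) : ℚ⟦X⟧ :=
  PowerSeries.mk fun m => 1 / (((b + m).choose m : ℚ) * (m.factorial : ℚ))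

theorem exp_sub_eq (b : ℕ) :
    (PowerSeries.exp ℚ -
        ∑ k ∈ range b, PowerSeries.C (1 / (k.factorial : ℚ)) * (PowerSeries.X : ℚ⟦X⟧) ^ k) =
      (PowerSeries.C (1 / (b.factorial : ℚ)) * (PowerSeries.X : ℚ⟦X⟧) ^ b) * den b := by
  ext n
  rw [mul_assoc, coeff_C_mul, mul_comm (X ^ b) (den b), coeff_mul_X_pow', map_sub, map_sum]
  simp only [coeff_C_mul, coeff_X_pow, coeff_exp, mul_ite, mul_one, mul_zero]
  rw [Finset.sum_ite_eq]
  by_cases h : b ≤ n
  · have h1 : n ∉ range b := by simp [h]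
    rw [if_neg h1, if_pos h]
    obtain ⟨m, rfl⟩ := Nat.exists_eq_add_of_le h
    simp only [den, Nat.add_sub_cancel_left, coeff_mk, sub_zero]
    have h2 : ((b + m).choose m : ℚ) * (m.factorial : ℚ) * (b.factorial : ℚ) =
        ((b + m).factorial : ℚ) := by
      have := Nat.choose_mul_factorial_mul_factorial (Nat.le_add_left m b)
      rw [Nat.add_sub_cancel] at this
      exact_mod_cast this
    rw [eq_comm, ← h2]
    simp only [eq_ratCast, Rat.cast_div, Rat.cast_one, Rat.cast_mul, Rat.cast_natCast]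
    rw [div_mul_div_comm, mul_comm]
    ring_nf
  · have h1 : n ∈ range b := by simpa using h
    rw [if_pos h1, if_neg h]
    simp

theorem constCoeff_den (b : ℕ) : PowerSeries.constantCoeff (den b) = 1 := by
  simp [den]

theorem isHyp_iff (b : ℕ) (B : ℕ → ℚ) :
    IsHypBernoulli b B ↔
      (PowerSeries.mk fun n => B n / (n.factorial : ℚ)) * den b = 1 := by
  unfold IsHypBernoulli
  rw [exp_sub_eq]
  have hne : (PowerSeries.C (1 / (b.factorial : ℚ)) * (PowerSeries.X : ℚ⟦X⟧) ^ b) ≠ 0 := by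
    apply mul_ne_zero
    · intro h
      have := congrArg (PowerSeries.coeff 0) h
      simp at this
      exact (Nat.factorial_ne_zero b) this
    · exact pow_ne_zero _ PowerSeries.X_ne_zero
  constructor
  · intro h
    apply mul_left_cancel₀ hne
    rw [mul_one]
    calc _ = (PowerSeries.mk fun n => B n / (n.factorial : ℚ)) *
        (PowerSeries.C (1 / (b.factorial : ℚ)) * (PowerSeries.X : ℚ⟦X⟧) ^ b * den b) := by ring
      _ = _ := h
  · intro h
    calc _ = (PowerSeries.C (1 / (b.factorial : ℚ)) * (PowerSeries.X : ℚ⟦X⟧) ^ b) *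
        ((PowerSeries.mk fun n => B n / (n.factorial : ℚ)) * den b) := by ring
      _ = _ := by rw [h, mul_one]

/-- recurrence for hypergeometric Bernoulli numbers -/
theorem rec_of_isHyp {b : ℕ} {B : ℕ → ℚ} (h : IsHypBernoulli b B) (n : ℕ) :
    B n = (if n = 0 then 1 else 0) -
      ∑ i ∈ range n, (n.choose i : ℚ) * B i * (1 / ((b + (n - i)).choose (n - i) : ℚ)) := by
  rw [isHyp_iff] at h
  have h1 := congrArg (PowerSeries.coeff n) h
  rw [coeff_mul, coeff_one, Finset.Nat.sum_antidiagonal_eq_sum_range_succ_mk] at h1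
  simp only [coeff_mk, den] at h1
  have h2 := congrArg (fun x => (n.factorial : ℚ) * x) h1
  simp only [Finset.mul_sum] at h2
  rw [Finset.sum_range_succ] at h2
  have hn : (n.factorial : ℚ) ≠ 0 := by exact_mod_cast Nat.factorial_ne_zero n
  have h3 : ∀ i ∈ range n, (n.factorial : ℚ) * (B i / (i.factorial : ℚ) *
      (1 / (((b + (n - i)).choose (n - i) : ℚ) * ((n - i).factorial : ℚ)))) =
      (n.choose i : ℚ) * B i * (1 / ((b + (n - i)).choose (n - i) : ℚ)) := by
    intro i hi
    have hi' : i ≤ n := (Finset.mem_range.mp hi).le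
    have := Nat.choose_mul_factorial_mul_factorial hi'
    have h4 : (n.factorial : ℚ) = (n.choose i : ℚ) * (i.factorial : ℚ) *
        ((n - i).factorial : ℚ) := by exact_mod_cast this.symm
    have h5 : (i.factorial : ℚ) ≠ 0 := by exact_mod_cast Nat.factorial_ne_zero i
    have h6 : ((n - i).factorial : ℚ) ≠ 0 := by exact_mod_cast Nat.factorial_ne_zero (n - i)
    have h7 : ((b + (n - i)).choose (n - i) : ℚ) ≠ 0 := by
      exact_mod_cast (Nat.choose_pos (Nat.le_add_left _ _)).ne'
    rw [h4]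
    field_simp
  rw [Finset.sum_congr rfl h3] at h2
  simp only [Nat.sub_self, Nat.choose_zero_right, Nat.cast_one, Nat.factorial_zero, mul_one,
    div_one] at h2
  rw [mul_div_cancel₀ _ hn] at h2
  rw [eq_sub_iff_add_eq, add_comm, h2]
  by_cases h0 : n = 0
  · subst h0; simp
  · simp [h0]

theorem existsUnique_isHyp (b : ℕ) :
    ∃ B : ℕ → ℚ, IsHypBernoulli b B ∧ ∀ B', IsHypBernoulli b B' → B' = B := by
  have hc : PowerSeries.constantCoeff (den b) ≠ 0 := by rw [constCoeff_den]; exact one_ne_zero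
  refine ⟨fun n => (n.factorial : ℚ) * PowerSeries.coeff n (den b)⁻¹, ?_, ?_⟩
  · rw [isHyp_iff]
    have : (PowerSeries.mk fun n => ((n.factorial : ℚ) * PowerSeries.coeff n (den b)⁻¹) /
        (n.factorial : ℚ)) = (den b)⁻¹ := by
      ext n
      rw [coeff_mk]
      have hn : (n.factorial : ℚ) ≠ 0 := by exact_mod_cast Nat.factorial_ne_zero n
      field_simp
    rw [this]
    exact PowerSeries.inv_mul_cancel _ hc
  · intro B' h
    rw [isHyp_iff] at h
    have h1 : (PowerSeries.mk fun n => B' n / (n.factorial : ℚ)) = (den b)⁻¹ := by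
      rw [PowerSeries.eq_inv_iff_mul_eq_one hc]
      exact h
    funext n
    have h2 := congrArg (PowerSeries.coeff n) h1
    rw [coeff_mk] at h2
    have hn : (n.factorial : ℚ) ≠ 0 := by exact_mod_cast Nat.factorial_ne_zero n
    rw [← h2]
    field_simp

/-- `binom (b+m) m` is odd for `m < 2^v` when `2^v ∣ b`. -/
theorem choose_odd (v : ℕ) : ∀ b m : ℕ, 2 ^ v ∣ b → m < 2 ^ v → (b + m).choose m % 2 = 1 := by
  induction v with
  | zero =>
    intro b m _ hm
    have : m = 0 := by simpa using hm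
    subst this
    simp
  | succ v ih =>
    intro b m hb hm
    obtain ⟨c, rfl⟩ := hb
    have h := Choose.choose_modEq_choose_mod_mul_choose_div_nat (n := 2 ^ (v + 1) * c + m)
      (k := m) (p := 2)
    have h1 : (2 ^ (v + 1) * c + m) % 2 = m % 2 := by
      rw [pow_succ, mul_comm (2 ^ v) 2, mul_assoc]; omega
    have h2 : (2 ^ (v + 1) * c + m) / 2 = 2 ^ v * c + m / 2 := by
      rw [pow_succ, mul_comm (2 ^ v) 2, mul_assoc]; omega
    rw [h1, h2, Nat.choose_self, one_mul] at h
    have h3 := ih (2 ^ v * c) (m / 2) (Dvd.intro _ rfl) (by rw [pow_succ] at hm; omega)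
    rw [h]
    exact h3

/-- `binom (2^v c + 2^v) (2^v)` is even for `c` odd. -/
theorem choose_even (v c : ℕ) (hc : c % 2 = 1) :
    (2 ^ v * c + 2 ^ v).choose (2 ^ v) % 2 = 0 := by
  induction v with
  | zero => simp; omega
  | succ v ih =>
    have h := Choose.choose_modEq_choose_mod_mul_choose_div_nat (n := 2 ^ (v + 1) * c + 2 ^ (v + 1))
      (k := 2 ^ (v + 1)) (p := 2)
    have h0 : 2 ^ (v + 1) % 2 = 0 := by rw [pow_succ]; omega
    have h1 : (2 ^ (v + 1) * c + 2 ^ (v + 1)) / 2 = 2 ^ v * c + 2 ^ v := by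
      rw [pow_succ, mul_comm (2 ^ v) 2, mul_assoc]; omega
    have h2 : 2 ^ (v + 1) / 2 = 2 ^ v := by rw [pow_succ]; omega
    rw [h0, h1, h2, Nat.choose_zero_right, one_mul] at h
    rw [h]
    exact ih

theorem odd_den_add {x y : ℚ} (hx : Odd x.den) (hy : Odd y.den) : Odd (x + y).den :=
  Odd.of_dvd_nat (hx.mul hy) (Rat.add_den_dvd x y)

theorem odd_den_mul {x y : ℚ} (hx : Odd x.den) (hy : Odd y.den) : Odd (x * y).den :=
  Odd.of_dvd_nat (hx.mul hy) (Rat.mul_den_dvd x y)

theorem odd_den_neg {x : ℚ} (hx : Odd x.den) : Odd (-x).den := by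
  rw [Rat.neg_den]; exact hx

theorem odd_den_sub {x y : ℚ} (hx : Odd x.den) (hy : Odd y.den) : Odd (x - y).den := by
  rw [sub_eq_add_neg]; exact odd_den_add hx (odd_den_neg hy)

theorem odd_den_sum {ι : Type*} (s : Finset ι) (f : ι → ℚ) (h : ∀ i ∈ s, Odd (f i).den) :
    Odd (∑ i ∈ s, f i).den := by
  classical
  induction s using Finset.induction_on with
  | empty => simp
  | insert a s ha ih =>
    rw [Finset.sum_insert ha]
    exact odd_den_add (h _ (Finset.mem_insert_self _ _))
      (ih fun i hi => h i (Finset.mem_insert_of_mem hi))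

theorem den_one_div (k : ℕ) (hk : 0 < k) : (1 / (k : ℚ)).den = k := by
  rw [one_div]
  exact Rat.inv_natCast_den_of_pos hk

theorem odd_den_natCast (k : ℕ) : Odd (k : ℚ).den := by simp

theorem odd_of_lt {b : ℕ} {B : ℕ → ℚ} (h : IsHypBernoulli b B) (v : ℕ) (hv : 2 ^ v ∣ b) (n : ℕ) :
    n < 2 ^ v → Odd (B n).den := by
  induction n using Nat.strong_induction_on with
  | _ n ih =>
    intro hn
    rw [rec_of_isHyp h n]
    apply odd_den_sub
    · split_ifs <;> simp
    · apply odd_den_sum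
      intro i hi
      have hi' := Finset.mem_range.mp hi
      apply odd_den_mul
      · exact odd_den_mul (odd_den_natCast _) (ih i hi' (hi'.trans hn))
      · rw [den_one_div _ (Nat.choose_pos (Nat.le_add_left _ _))]
        exact Nat.odd_iff.mpr (choose_odd v b (n - i) hv (by omega))

theorem even_at {b : ℕ} {B : ℕ → ℚ} (h : IsHypBernoulli b B) (v c : ℕ) (hb : b = 2 ^ v * c)
    (hc : c % 2 = 1) : Even (B (2 ^ v)).den := by
  by_contra hne
  rw [Nat.not_even_iff_odd] at hne
  have hpos : 0 < 2 ^ v := by positivity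
  have hrec := rec_of_isHyp h (2 ^ v)
  rw [if_neg hpos.ne'] at hrec
  obtain ⟨k, hk⟩ : ∃ k, 2 ^ v = k + 1 := ⟨2 ^ v - 1, by omega⟩
  have hB0 : B 0 = 1 := by
    have := rec_of_isHyp h 0
    simpa using this
  have hsplit : ∑ i ∈ range (2 ^ v), ((2 ^ v).choose i : ℚ) * B i *
      (1 / ((b + (2 ^ v - i)).choose (2 ^ v - i) : ℚ)) =
      (∑ i ∈ range k, ((2 ^ v).choose (i + 1) : ℚ) * B (i + 1) *
      (1 / ((b + (2 ^ v - (i + 1))).choose (2 ^ v - (i + 1)) : ℚ))) +
      1 / ((b + 2 ^ v).choose (2 ^ v) : ℚ) := by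
    have : range (2 ^ v) = range (k + 1) := by rw [hk]
    rw [this, Finset.sum_range_succ']
    simp [hB0]
  rw [hsplit] at hrec
  have h1 : (1 / ((b + 2 ^ v).choose (2 ^ v) : ℚ)) = -(B (2 ^ v)) -
      (∑ i ∈ range k, ((2 ^ v).choose (i + 1) : ℚ) * B (i + 1) *
      (1 / ((b + (2 ^ v - (i + 1))).choose (2 ^ v - (i + 1)) : ℚ))) := by
    rw [hrec]; ring
  have h2 : Odd (1 / ((b + 2 ^ v).choose (2 ^ v) : ℚ)).den := by
    rw [h1]
    apply odd_den_sub (odd_den_neg hne)
    apply odd_den_sum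
    intro i hi
    have hi' := Finset.mem_range.mp hi
    have hvb : 2 ^ v ∣ b := ⟨c, hb⟩
    apply odd_den_mul
    · exact odd_den_mul (odd_den_natCast _) (odd_of_lt h v hvb (i + 1) (by omega))
    · rw [den_one_div _ (Nat.choose_pos (Nat.le_add_left _ _))]
      exact Nat.odd_iff.mpr (choose_odd v b _ hvb (by omega))
  rw [den_one_div _ (Nat.choose_pos (Nat.le_add_left _ _)), Nat.odd_iff, hb,
    choose_even v c hc] at h2
  exact absurd h2 (by norm_num)

/-- For every `b ≥ 1` the hypergeometric Bernoulli numbers `B_n^{(b)}` exist, are unique, and the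
least `n` for which the denominator of `B_n^{(b)}` (in lowest terms) is even equals
`ν₂(b) + 1` if `4 ∤ b` and `2 ^ ν₂(b)` if `4 ∣ b`. -/
theorem result (b : ℕ) (hb : 1 ≤ b) :
    ∃ B : ℕ → ℚ, IsHypBernoulli b B ∧ (∀ B' : ℕ → ℚ, IsHypBernoulli b B' → B' = B) ∧
      IsLeast {n : ℕ | Even (B n).den}
        (if b % 4 = 0 then 2 ^ padicValNat 2 b else padicValNat 2 b + 1) := by
  obtain ⟨B, hB, huniq⟩ := existsUnique_isHyp b
  refine ⟨B, hB, huniq, ?_⟩
  have hval : (if b % 4 = 0 then 2 ^ padicValNat 2 b else padicValNat 2 b + 1) =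
      2 ^ padicValNat 2 b := by
    split_ifs with h4
    · rfl
    · by_cases h2 : b % 2 = 0
      · have h1 : padicValNat 2 b = 1 := by
          have hle : 1 ≤ padicValNat 2 b :=
            one_le_padicValNat_of_dvd (by omega) (Nat.dvd_of_mod_eq_zero h2)
          have hlt : padicValNat 2 b < 2 := by
            by_contra hcon
            have : 2 ^ 2 ∣ b := (padicValNat_dvd_iff_le (by omega)).mpr (by omega)
            omega
          omega
        rw [h1]
        norm_num
      · have h0 : padicValNat 2 b = 0 := padicValNat.eq_zero_of_not_dvd (by omega)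
        rw [h0]
        norm_num
  rw [hval]
  have hdvd : 2 ^ padicValNat 2 b ∣ b := pow_padicValNat_dvd
  obtain ⟨c, hc⟩ := hdvd
  have hcodd : c % 2 = 1 := by
    by_contra hcon
    obtain ⟨d, rfl⟩ : 2 ∣ c := by omega
    have : 2 ^ (padicValNat 2 b + 1) ∣ b := ⟨d, by rw [pow_succ, mul_assoc]; exact hc⟩
    have h3 := (padicValNat_dvd_iff_le (p := 2) (by omega : b ≠ 0)).mp this
    omega
  constructor
  · exact even_at hB _ c hc hcodd
  · intro n hn
    by_contra hlt
    rw [not_le] at hlt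
    have h1 := odd_of_lt hB _ ⟨c, hc⟩ n hlt
    exact (Nat.not_even_iff_odd.mpr h1) hn

end Pool.Agent.Results.MP_375cbb_nt.InitialOddRun
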